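import Mathlib
import Pool.Agent.H68R2.BP.Props2

/-!
The modular conjugation (TT_main).
-/

open scoped ComplexOrder InnerProductSpace ComplexConjugate Topology
open Finset Filter

noncomputable section

namespace H68R2.BP

open H759R2.Kad H744R2.KZ

namespace TTM

variable {H : Type} [NormedAddCommGroup H] [InnerProductSpace ℂ H] [CompleteSpace H]

theorem mem_KS {M : Set (H →L[ℂ] H)} {Ω : H} {a : H →L[ℂ] H} (ha : a ∈ M) (hs : star a = a) :
    a Ω ∈ KS M Ω := subset_closure ⟨a, ha, hs, rfl⟩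

theorem nonneg_of_sa {T : H →L[ℂ] H} (hT : star T = T) (hp : ∀ x, 0 ≤ (⟪T x, x⟫_ℂ).re) (x : H) :
    0 ≤ ⟪T x, x⟫_ℂ := by
  have h1 : conj ⟪T x, x⟫_ℂ = ⟪T x, x⟫_ℂ := by
    rw [inner_conj_symm]
    have := ContinuousLinearMap.adjoint_inner_left T x x
    rw [← ContinuousLinearMap.star_eq_adjoint, hT] at this
    exact this.symm
  rw [Complex.le_def]
  refine ⟨hp x, ?_⟩
  have h2 := Complex.conj_eq_iff_im.mp h1
  simp [h2]

theorem inner_re (x : H) : (⟪x, x⟫_ℂ).re = ‖x‖ ^ 2 := inner_self_eq_norm_sq (𝕜 := ℂ) x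

theorem inner_swap (R : H →L[ℂ] H) (x : H) :
    (⟪((2 : ℂ) • (1 : H →L[ℂ] H) - R) x, x⟫_ℂ).re = 2 * ‖x‖ ^ 2 - (⟪R x, x⟫_ℂ).re := by
  have h2 : ((2 : ℂ) • (1 : H →L[ℂ] H) - R) x = (2 : ℂ) • x - R x := by simp
  rw [h2, inner_sub_left, inner_smul_left, Complex.sub_re]
  have h3 : (conj (2 : ℂ)) = ((2 : ℝ) : ℂ) := by
    rw [show (2 : ℂ) = ((2 : ℝ) : ℂ) by norm_num, Complex.conj_ofReal]
  rw [h3, Complex.re_ofReal_mul, inner_re]

theorem rop_swap {R T : H →L[ℂ] H} (h : ROp R T) : ROp ((2 : ℂ) • 1 - R) T where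
  R_sa := by
    rw [star_sub, star_smul, star_one, h.R_sa]
    simp
  R_pos := fun x => by
    have h1 := h.R_le x
    rw [inner_swap]
    linarith
  R_le := fun x => by
    have h1 := h.R_pos x
    rw [inner_swap]
    linarith
  R_inj := fun x hx => h.R_inj' x (by simpa using hx)
  R_inj' := fun x hx => h.R_inj x (by simpa using hx)
  T_sa := h.T_sa
  T_pos := h.T_pos
  T_sq := by
    rw [h.T_sq]
    have : (2 : ℂ) • (1 : H →L[ℂ] H) - ((2 : ℂ) • 1 - R) = R := by abel
    rw [this, mul_sub, sub_mul, mul_smul_comm, smul_mul_assoc, one_mul, mul_one]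
  TR := by
    rw [mul_sub, sub_mul, h.TR, mul_smul_comm, smul_mul_assoc, one_mul, mul_one]

theorem top_swap {K K' : Set H} {R T : H →L[ℂ] H} {J : H → H} (h : TOp K K' R T J) :
    TOp K' K ((2 : ℂ) • 1 - R) T J where
  rop := rop_swap h.rop
  add := h.add
  smul := h.smul
  inv := h.inv
  inner := h.inner
  JT := h.JT
  JR := fun x => by
    have h1 : ((2 : ℂ) • (1 : H →L[ℂ] H) - R) x = (2 : ℂ) • x + (-1 : ℂ) • R x := by
      simp [sub_eq_add_neg]
    have h2 : ((2 : ℂ) • (1 : H →L[ℂ] H) - R) (J x) = (2 : ℂ) • J x - R (J x) := by simp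
    have h3 : conj (2 : ℂ) = 2 := Complex.conj_ofNat 2
    have h4 : conj (-1 : ℂ) = -1 := by rw [map_neg, map_one]
    rw [h1, h.add, h.smul, h.smul, h.JR, h2, h3, h4, neg_one_smul]
    abel
  k := fun x hx => by
    have h1 := h.k' x hx
    rw [← h1]
    simp
  k' := fun x hx => by
    have h1 := h.k x hx
    rw [← h1]
    simp
  pr := fun x hx => by
    have h1 := h.pr' x hx
    have h2 : (2 : ℂ) • x - ((2 : ℂ) • (1 : H →L[ℂ] H) - R) x = R x := by simp
    rw [h2]
    exact h1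
  pr' := fun x hx => by
    have h1 := h.pr x hx
    have h2 : ((2 : ℂ) • (1 : H →L[ℂ] H) - R) x = (2 : ℂ) • x - R x := by simp
    rw [h2]
    exact h1

/-- cyclic and separating data of a von Neumann algebra -/
theorem cs_of (M : VonNeumannAlgebra H) (Ω : H)
    (hcyc : ∀ x : H, (∀ a ∈ M, ⟪a Ω, x⟫_ℂ = 0) → x = 0) (hsep : ∀ a ∈ M, a Ω = 0 → a = 0) :
    CS (M : Set (H →L[ℂ] H)) (Cm (M : Set (H →L[ℂ] H))) Ω := by
  have hN : ∀ b : H →L[ℂ] H, b ∈ Cm (M : Set (H →L[ℂ] H)) ↔ b ∈ M.commutant := fun b => by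
    rw [VonNeumannAlgebra.mem_commutant_iff]
    exact ⟨fun h g hg => (h g hg).symm, fun h g hg => (h g hg).symm⟩
  have hMM : (M : Set (H →L[ℂ] H)) = Cm (Cm (M : Set (H →L[ℂ] H))) := by
    ext a
    constructor
    · intro ha b hb
      exact (hb a ha).symm
    · intro ha
      have h1 : a ∈ M.commutant.commutant := by
        rw [VonNeumannAlgebra.mem_commutant_iff]
        intro g hg
        exact (ha g ((hN g).mpr hg)).symm
      rw [VonNeumannAlgebra.commutant_commutant] at h1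
      exact h1
  refine ⟨rfl, hMM, fun a ha => star_mem ha, hcyc, ?_, hsep, ?_⟩
  · intro x hx
    -- the orthogonal complement of `N Ω`
    let V : Submodule ℂ H :=
      { carrier := {x | ∀ b ∈ M.commutant, ⟪b Ω, x⟫_ℂ = 0}
        add_mem' := fun {x y} h1 h2 b hb => by rw [inner_add_right, h1 b hb, h2 b hb, add_zero]
        zero_mem' := fun b hb => inner_zero_right _
        smul_mem' := fun c x h1 b hb => by rw [inner_smul_right, h1 b hb, mul_zero] }
    have hVc : IsClosed (V : Set H) := by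
      have : (V : Set H) = ⋂ b ∈ M.commutant, {x | ⟪b Ω, x⟫_ℂ = 0} := by
        ext x
        simp only [Set.mem_iInter, Set.mem_setOf_eq]
        rfl
      rw [this]
      exact isClosed_biInter fun b _ => isClosed_eq (by fun_prop) continuous_const
    haveI : CompleteSpace V := hVc.completeSpace_coe
    have hP : IsStarProjection V.starProjection := isStarProjection_starProjection
    have hPM : V.starProjection ∈ M := by
      rw [VonNeumannAlgebra.IsStarProjection.mem_iff hP]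
      intro y hy
      have h1 : (V.starProjection).range = V := by
        exact V.range_starProjection
      rw [h1, Module.End.mem_invtSubmodule]
      intro v hv b hb
      have h2 : ⟪(star y * b) Ω, v⟫_ℂ = 0 := hv (star y * b) (mul_mem (star_mem hy) hb)
      have h3 : ⟪b Ω, y v⟫_ℂ = ⟪(star y * b) Ω, v⟫_ℂ := by
        rw [ContinuousLinearMap.mul_apply, ContinuousLinearMap.star_eq_adjoint,
          ContinuousLinearMap.adjoint_inner_left]
      exact h3.trans h2
    have hΩ : V.starProjection Ω = 0 := by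
      rw [Submodule.starProjection_apply_eq_zero_iff]
      rw [Submodule.mem_orthogonal]
      intro u hu
      have := hu 1 (one_mem _)
      rw [← inner_conj_symm, show ⟪Ω, u⟫_ℂ = 0 from this, map_zero]
    have h0 := hsep _ hPM hΩ
    have hxV : x ∈ V := fun b hb => hx b ((hN b).mpr hb)
    have : V.starProjection x = x := Submodule.starProjection_eq_self_iff.mpr hxV
    rw [h0] at this
    simpa using this.symm
  · intro b hb h0
    have h1 : ∀ y, star b y = 0 := fun y => by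
      apply hcyc
      intro a ha
      have h2 : ⟪a Ω, star b y⟫_ℂ = ⟪b (a Ω), y⟫_ℂ := by
        rw [ContinuousLinearMap.star_eq_adjoint, ContinuousLinearMap.adjoint_inner_right]
      have h3 : b (a Ω) = a (b Ω) := by
        have := hb a ha
        exact congrArg (fun T : H →L[ℂ] H => T Ω) this
      rw [h2, h3, h0, map_zero, inner_zero_left]
    have h2 : star b = 0 := ContinuousLinearMap.ext h1
    exact star_eq_zero.mp h2

theorem cs_swap {M N : Set (H →L[ℂ] H)} {Ω : H} (h : CS M N Ω) : CS N M Ω where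
  cN := h.cM
  cM := h.cN
  stM := fun a ha => by
    rw [h.cN] at ha ⊢
    intro b hb
    have h1 := ha (star b) (h.stM b hb)
    have := congrArg star h1
    rw [star_mul, star_mul, star_star] at this
    exact this.symm
  cyc := h.cyc'
  cyc' := h.cyc
  sep := h.sep'
  sep' := h.sep

/-- real and imaginary parts -/
theorem parts {M : Set (H →L[ℂ] H)} (hM : ∀ a ∈ M, star a ∈ M)
    (hadd : ∀ a ∈ M, ∀ b ∈ M, a + b ∈ M) (hsm : ∀ (c : ℂ), ∀ a ∈ M, c • a ∈ M)
    (m : H →L[ℂ] H) (hm : m ∈ M) : ∃ m1 ∈ M, ∃ m2 ∈ M, star m1 = m1 ∧ star m2 = m2 ∧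
      m = m1 + Complex.I • m2 ∧ star m = m1 + (-Complex.I) • m2 := by
  have c1 : star (1 / 2 : ℂ) = 1 / 2 := by
    rw [show (1 / 2 : ℂ) = ((1 / 2 : ℝ) : ℂ) by norm_num]
    exact Complex.conj_ofReal _
  have c2 : star (-(Complex.I / 2) : ℂ) = Complex.I / 2 := by
    rw [show (-(Complex.I / 2) : ℂ) = (-Complex.I) * (1 / 2) by ring, star_mul, c1, star_neg]
    rw [show star Complex.I = -Complex.I from Complex.conj_I]
    ring
  have e1 : (1 / 2 : ℂ) • (m + star m) ∈ M := hsm _ _ (hadd _ hm _ (hM _ hm))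
  have e2 : (-(Complex.I / 2) : ℂ) • (m - star m) ∈ M := by
    have : (-(Complex.I / 2) : ℂ) • (m - star m)
        = (-(Complex.I / 2) : ℂ) • (m + (-1 : ℂ) • star m) := by
      rw [neg_one_smul, sub_eq_add_neg]
    rw [this]
    exact hsm _ _ (hadd _ hm _ (hsm _ _ (hM _ hm)))
  have s1 : star ((1 / 2 : ℂ) • (m + star m)) = (1 / 2 : ℂ) • (m + star m) := by
    rw [star_smul, c1, star_add, star_star, add_comm]
  have s2 : star ((-(Complex.I / 2) : ℂ) • (m - star m)) = (-(Complex.I / 2) : ℂ) • (m - star m) := by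
    rw [star_smul, c2, star_sub, star_star, ← neg_sub m (star m), smul_neg, neg_smul]
  have d : m = (1 / 2 : ℂ) • (m + star m) + Complex.I • ((-(Complex.I / 2) : ℂ) • (m - star m)) := by
    rw [smul_smul]
    have : Complex.I * (-(Complex.I / 2)) = 1 / 2 := by
      have := Complex.I_mul_I
      linear_combination (-1 / 2 : ℂ) * this
    rw [this, ← smul_add]
    have : m + star m + (m - star m) = (2 : ℂ) • m := by
      rw [two_smul]; abel
    rw [this, smul_smul]
    norm_num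
  refine ⟨_, e1, _, e2, s1, s2, d, ?_⟩
  have d2 := congrArg star d
  rw [star_add, s1, star_smul Complex.I, s2] at d2
  rw [show star Complex.I = -Complex.I from Complex.conj_I] at d2
  exact d2

/-- the relation `(2 - R) m Ω = J T m* Ω` -/
theorem k_all {M N : Set (H →L[ℂ] H)} {Ω : H} (hM : ∀ a ∈ M, star a ∈ M)
    (hadd : ∀ a ∈ M, ∀ b ∈ M, a + b ∈ M) (hsm : ∀ (c : ℂ), ∀ a ∈ M, c • a ∈ M)
    {R T : H →L[ℂ] H} {J : H → H} (h : TOp (KS M Ω) (KS N Ω) R T J) (m : H →L[ℂ] H) (hm : m ∈ M) :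
    (2 : ℂ) • m Ω - R (m Ω) = J (T ((star m) Ω)) := by
  obtain ⟨m1, e1, m2, e2, s1, s2, d, d'⟩ := parts hM hadd hsm m hm
  have k1 := h.k _ (mem_KS (Ω := Ω) e1 s1)
  have k2 := h.k _ (mem_KS (Ω := Ω) e2 s2)
  have r : J (T ((star m) Ω)) = J (T (m1 Ω)) + Complex.I • J (T (m2 Ω)) := by
    have : (star m) Ω = m1 Ω + (-Complex.I) • m2 Ω := by rw [d']; rfl
    rw [this, map_add, map_smul, h.add, h.smul, map_neg, Complex.conj_I, neg_neg]
  have l : m Ω = m1 Ω + Complex.I • m2 Ω := by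
    conv_lhs => rw [d]
    rfl
  rw [r, ← k1, ← k2, l, map_add, map_smul, smul_add, smul_sub, smul_smul, smul_smul,
    mul_comm Complex.I 2]
  abel

end TTM

open TTM in
theorem prove_TT_main (h1 : T_ex) (h2 : T_fin) : TT_main := by
  intro H _ _ _ M Ω hcyc hsep
  have cs := cs_of M Ω hcyc hsep
  obtain ⟨R, T, J, tp⟩ := h1 H (M : Set (H →L[ℂ] H)) (Cm (M : Set (H →L[ℂ] H))) Ω cs
  have f1 := h2 H _ _ Ω cs R T J tp
  have f2 := h2 H _ _ Ω (cs_swap cs) _ T J (top_swap tp)
  -- `Ω` is fixed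
  have o1 : Ω ∈ KS (M : Set (H →L[ℂ] H)) Ω := by
    have := mem_KS (M := (M : Set (H →L[ℂ] H))) (Ω := Ω) (one_mem M) (star_one _)
    simpa using this
  have o2 : Ω ∈ KS (Cm (M : Set (H →L[ℂ] H))) Ω := by
    have : (1 : H →L[ℂ] H) ∈ Cm (M : Set (H →L[ℂ] H)) := fun a _ => by rw [one_mul, mul_one]
    have := mem_KS (Ω := Ω) this (star_one _)
    simpa using this
  have q1 := tp.k Ω o1
  have q2 := tp.k' Ω o2
  have hR : R Ω = Ω := by
    have : (2 : ℂ) • Ω - R Ω = R Ω := by rw [q1, q2]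
    have h3 : (2 : ℂ) • Ω = (2 : ℂ) • R Ω := by
      rw [sub_eq_iff_eq_add] at this
      rw [this, two_smul]
    exact (smul_right_injective H (two_ne_zero : (2 : ℂ) ≠ 0) h3).symm
  have hTT : T (T Ω) = Ω := by
    have h3 : (T * T) Ω = (R * ((2 : ℂ) • 1 - R)) Ω := by rw [tp.rop.T_sq]
    have h4 : (R * ((2 : ℂ) • 1 - R)) Ω = R ((2 : ℂ) • Ω - R Ω) := by simp
    have h5 : (2 : ℂ) • Ω - R Ω = Ω := by
      rw [hR, two_smul]; abel
    rw [h4, h5, hR] at h3
    exact h3
  have hT : T Ω = Ω := by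
    set v := T Ω - Ω with hv
    have h3 : T v = -v := by
      rw [hv, map_sub, hTT]; abel
    have h4 := tp.rop.T_pos v
    rw [h3, inner_neg_left, Complex.neg_re] at h4
    have h5 : (⟪v, v⟫_ℂ).re = ‖v‖ ^ 2 := inner_re v
    rw [h5] at h4
    have h6 : ‖v‖ = 0 := by nlinarith [norm_nonneg v]
    have h7 : v = 0 := norm_eq_zero.mp h6
    exact sub_eq_zero.mp h7
  have hJ : J Ω = Ω := by
    rw [hT] at q2
    rw [← q2, hR]
  refine ⟨J, tp.add, tp.smul, tp.inv, tp.inner, hJ, ?_, ?_, ?_⟩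
  · intro a ha
    have hsm : ∀ (c : ℂ), ∀ a ∈ (M : Set (H →L[ℂ] H)), c • a ∈ (M : Set (H →L[ℂ] H)) :=
      fun c a ha => M.toStarSubalgebra.smul_mem ha c
    have k1 := k_all (M := (M : Set (H →L[ℂ] H))) (fun a ha => star_mem ha)
      (fun a ha b hb => add_mem ha hb) hsm tp a ha
    set η := a Ω with hη
    set ζ := J ((star a) Ω) with hζ
    -- `(2 - R) η = T ζ`
    have e1 : (2 : ℂ) • η - R η = T ζ := by
      rw [k1, tp.JT]
    -- `T η = R ζ`
    have e2 : T η = R ζ := by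
      have h3 : (2 : ℂ) • (T η - R ζ) - R (T η - R ζ) = 0 := by
        have a1 : T ((2 : ℂ) • η - R η) = T (T ζ) := by rw [e1]
        have a2 : T (T ζ) = R ((2 : ℂ) • ζ - R ζ) := by
          have := congrArg (fun S : H →L[ℂ] H => S ζ) tp.rop.T_sq
          simpa using this
        have a3 : T (R η) = R (T η) := congrArg (fun S : H →L[ℂ] H => S η) tp.rop.TR
        rw [a2, map_sub, map_smul, a3, map_sub, map_smul] at a1
        rw [smul_sub, map_sub]
        rw [sub_eq_sub_iff_add_eq_add] at a1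
        rw [sub_eq_zero, sub_eq_sub_iff_add_eq_add, a1, add_comm]
      exact sub_eq_zero.mp (tp.rop.R_inj' _ h3)
    have g1 : (star a) Ω = J ζ := by rw [hζ, tp.inv]
    rw [g1, tp.inner]
    -- positivity
    have g2 : 2 * ⟪ζ, η⟫_ℂ = ⟪T ζ, ζ⟫_ℂ + ⟪T η, η⟫_ℂ := by
      have b1 : ⟪ζ, (2 : ℂ) • η⟫_ℂ = ⟪ζ, (2 : ℂ) • η - R η⟫_ℂ + ⟪ζ, R η⟫_ℂ := by
        rw [← inner_add_right, sub_add_cancel]
      have b2 : ⟪ζ, R η⟫_ℂ = ⟪R ζ, η⟫_ℂ := by
        have := ContinuousLinearMap.adjoint_inner_left R η ζ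
        rw [← ContinuousLinearMap.star_eq_adjoint, tp.rop.R_sa] at this
        exact this.symm
      have b3 : ⟪ζ, T ζ⟫_ℂ = ⟪T ζ, ζ⟫_ℂ := by
        have := ContinuousLinearMap.adjoint_inner_left T ζ ζ
        rw [← ContinuousLinearMap.star_eq_adjoint, tp.rop.T_sa] at this
        exact this.symm
      rw [inner_smul_right] at b1
      rw [b1, e1, b2, ← e2, b3]
    have g3 : 0 ≤ 2 * ⟪ζ, η⟫_ℂ := by
      rw [g2]
      exact add_nonneg (nonneg_of_sa tp.rop.T_sa tp.rop.T_pos ζ)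
        (nonneg_of_sa tp.rop.T_sa tp.rop.T_pos η)
    have g4 : ⟪ζ, η⟫_ℂ = (1 / 2 : ℂ) * (2 * ⟪ζ, η⟫_ℂ) := by ring
    rw [g4]
    apply mul_nonneg _ g3
    rw [Complex.le_def]
    norm_num
  · intro a ha b hb x
    obtain ⟨b', hb', h3⟩ := f2 b hb
    rw [← h3, ← h3]
    have := hb' a ha
    exact (congrArg (fun S : H →L[ℂ] H => S x) this).symm
  · intro a' ha'
    exact f1 a' ha'

end H68R2.BP
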